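import Pool.Agent.W170.Z3.Stm

/-!
Task C1: p-adic size of the partial fraction coefficients with an extra factor `E` in the numerator
(copy of `Pool.Agent.H387R3.ZF.C1` with the new parameters).
-/

open Polynomial Pool.Agent.H337R2 Pool.Agent.W170.Z3

namespace Pool.Agent.W378.Z3

noncomputable section

section C1

variable {p : ℕ} [hp : Fact p.Prime]

lemma C1_PB_PF (n : ℕ) (k : ℕ) :
    PB p (p : ℚ) (padicNorm p (cF n) * (((p : ℚ)⁻¹) ^ (1 * cnt p 1 (4 * n) k) *
      ((p : ℚ)⁻¹) ^ (1 * cnt p 1 (6 * n) k))) (TS (-(k : ℚ)) (PF n)) := by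
  have hp0 : (0 : ℚ) ≤ p := p_pos'.le
  have hinv : (0 : ℚ) ≤ (p : ℚ)⁻¹ := inv_nonneg.2 hp0
  have hcst : 0 ≤ padicNorm p (cF n) := padicNorm.nonneg _
  unfold PF
  rw [(TS (-(k : ℚ))).map_mul, (TS (-(k : ℚ))).map_mul, map_prod, map_prod, TS_C]
  simp only [TS_lin]
  have h1 := PB_block (p := p) 1 (4 * n) 1 k
  have h2 := PB_block (p := p) 1 (6 * n) 1 k
  simp only [pow_one] at h1 h2
  exact PB.mul hp0 hcst (by positivity) (PB.C hp0 hcst le_rfl)
    (PB.mul hp0 (by positivity) (by positivity) h1 h2)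

lemma C1_PB_PF_int (n : ℕ) (k : ℕ) :
    PB p 1 (padicNorm p (cF n)) (TS (-(k : ℚ)) (PF n)) := by
  have hcst : 0 ≤ padicNorm p (cF n) := padicNorm.nonneg _
  have hl : ∀ m : ℕ, PB p 1 1 (PowerSeries.X + PowerSeries.C (-(k : ℚ) + m)) := by
    intro m
    apply PB.linX zero_le_one zero_le_one
    · have := padicNorm.of_int (p := p) (-(k : ℤ) + m)
      push_cast at this
      exact this
    · rw [one_mul]
  have hs : ∀ s : Finset ℕ, PB p 1 1 (∏ m ∈ s, (PowerSeries.X + PowerSeries.C (-(k : ℚ) + m))) := by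
    intro s
    have := PB.prod (p := p) (ρ := 1) s (fun _ => (1 : ℚ)) _ zero_le_one
      (fun _ _ => by norm_num) (fun m _ => hl m)
    simpa using this
  unfold PF
  rw [(TS (-(k : ℚ))).map_mul, (TS (-(k : ℚ))).map_mul, map_prod, map_prod, TS_C]
  simp only [TS_lin]
  have h5 := PB.mul (p := p) zero_le_one zero_le_one zero_le_one (hs (Finset.Icc 1 (4 * n)))
    (hs (Finset.Icc 1 (6 * n)))
  have h4 := PB.mul zero_le_one hcst (by norm_num)
    (PB.C (p := p) zero_le_one hcst le_rfl) h5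
  simpa using h4

lemma C1_norm_cF {n : ℕ} (hp2 : 12 * n < p ^ 2) :
    padicNorm p (cF n) = (p : ℚ) ^ (-(2 * ((7 * n / p : ℕ) : ℤ) - ((4 * n / p : ℕ) : ℤ) -
      ((6 * n / p : ℕ) : ℤ))) := by
  have hpne : (p : ℚ) ≠ 0 := p_pos'.ne'
  unfold cF
  rw [padicNorm.div]
  push_cast
  rw [pow_two, padicNorm.mul, padicNorm.mul,
    norm_factorial (by omega), norm_factorial (by omega), norm_factorial (by omega),
    ← zpow_add₀ hpne, ← zpow_add₀ hpne, ← zpow_sub₀ hpne]
  congr 1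
  push_cast
  ring

lemma C1_mem_ne {n k m : ℕ} (hm : m ∈ sF n) (hk : k ∈ sF n) (hmk : m ≠ k) (hp2 : 12 * n < p ^ 2) :
    padicNorm p ((m : ℚ) - k) = if (p : ℤ) ∣ (m : ℤ) - k then (p : ℚ)⁻¹ else 1 := by
  have h1 : ((m : ℤ) - k) ≠ 0 := by
    intro h; apply hmk; omega
  have h2 : |(m : ℤ) - k| < (p : ℤ) ^ 2 := by
    rw [Finset.mem_Icc] at hm hk
    have h3 : ((12 * n : ℕ) : ℤ) < ((p ^ 2 : ℕ) : ℤ) := by exact_mod_cast hp2
    have h4 : (((p ^ 2 : ℕ) : ℤ)) = (p : ℤ) ^ 2 := by push_cast; ring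
    rw [← h4, abs_lt]
    omega
  have h3 := norm_small (p := p) h1 h2
  push_cast at h3
  exact h3

omit hp in
lemma C1_Np {n k : ℕ} (hk : k ∈ sF n) :
    2 * cnt p (5 * n + 1) (12 * n) k = mF k +
    ∑ m ∈ (sF n).erase k, mF m * (if (p : ℤ) ∣ (m : ℤ) - k then 1 else 0) := by
  have h2 : mF k + ∑ m ∈ (sF n).erase k, mF m * (if (p : ℤ) ∣ (m : ℤ) - k then 1 else 0) =
      ∑ m ∈ sF n, mF m * (if (p : ℤ) ∣ (m : ℤ) - k then 1 else 0) := by
    rw [← Finset.add_sum_erase _ _ hk]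
    simp
  rw [h2]
  unfold cnt
  rw [Finset.card_filter, Finset.mul_sum]

end C1

/-- p-adic size of the partial fraction coefficients -/
theorem C1_pa : StC1 := by
  intro n p _ hn hp2 E k hk A hA hE i
  have hp0 : (0 : ℚ) ≤ p := p_pos'.le
  have hpne : (p : ℚ) ≠ 0 := p_pos'.ne'
  have hinv : (0 : ℚ) ≤ (p : ℚ)⁻¹ := inv_nonneg.2 hp0
  have hcst : 0 ≤ padicNorm p (cF n) := padicNorm.nonneg _
  have key : padicNorm p (pa (sF n) mF (PF n * E) k i) ≤
      (padicNorm p (cF n) * ((p : ℚ)⁻¹) ^ (cnt p 1 (4 * n) k + cnt p 1 (6 * n) k + i) *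
        (p : ℚ) ^ (2 * cnt p (5 * n + 1) (12 * n) k)) * A := by
    unfold pa
    split_ifs with hi
    · have hPE := PB.mul hp0 (by positivity) hA (C1_PB_PF (p := p) n k) hE
      rw [← map_mul] at hPE
      have h1 := pfc_bound (p := p) (sF n) mF (PF n * E) k (p : ℚ) _
        (fun m => if (p : ℤ) ∣ (m : ℤ) - k then (p : ℚ) else 1) hp0 (by positivity)
        hPE
        (by
          intro m hm _
          rw [C1_mem_ne (Finset.mem_of_mem_erase hm) hk (Finset.ne_of_mem_erase hm) hp2]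
          split_ifs
          · simp
          · simp [(Fact.out : p.Prime).one_lt.le])
        (by
          intro m _
          split_ifs
          · exact hp0
          · exact zero_le_one) (mF k - i)
      refine h1.trans (le_of_eq ?_)
      rw [prod_ite_pow, C1_Np hk]
      have h3 : ((p : ℚ)⁻¹) ^ i * (p : ℚ) ^ i = 1 := by
        rw [← mul_pow, inv_mul_cancel₀ hpne, one_pow]
      have h4 : (p : ℚ) ^ (mF k) = (p : ℚ) ^ (mF k - i) * (p : ℚ) ^ i := by
        rw [← pow_add, Nat.sub_add_cancel hi]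
      rw [one_mul, one_mul, pow_add, pow_add, pow_add, h4]
      linear_combination (padicNorm p (cF n) * (((p : ℚ)⁻¹) ^ (cnt p 1 (4 * n) k) *
        ((p : ℚ)⁻¹) ^ (cnt p 1 (6 * n) k)) *
        (p : ℚ) ^ (∑ m ∈ (sF n).erase k, mF m * (if (p : ℤ) ∣ (m : ℤ) - k then 1 else 0)) *
        (p : ℚ) ^ (mF k - i)) * A * (-1) * h3
    · rw [padicNorm.zero]
      positivity
  refine key.trans (le_of_eq ?_)
  rw [C1_norm_cF hp2]
  congr 1
  rw [inv_pow, ← zpow_natCast, ← zpow_natCast, ← zpow_neg, ← zpow_add₀ hpne, ← zpow_add₀ hpne]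
  congr 1
  unfold eF
  push_cast; ring

/-- p-adic size of the partial fraction coefficients at an isolated pole -/
theorem C1_pa_int : StC1i := by
  intro n p _ hn E k hk A hA hE i hno
  have hcst : 0 ≤ padicNorm p (cF n) := padicNorm.nonneg _
  unfold pa
  split_ifs with hi
  · have hPE := PB.mul zero_le_one hcst hA (C1_PB_PF_int (p := p) n k) hE
    rw [← map_mul] at hPE
    have h1 := pfc_bound (p := p) (sF n) mF (PF n * E) k 1 _
      (fun _ => 1) zero_le_one (by positivity) hPE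
      (by
        intro m hm _
        have h2 := hno m (Finset.mem_of_mem_erase hm) (Finset.ne_of_mem_erase hm)
        have h3 := (padicNorm.int_eq_one_iff (p := p) _).2 h2
        push_cast at h3
        rw [h3]; simp)
      (by intro m _; exact zero_le_one) (mF k - i)
    simpa using h1
  · rw [padicNorm.zero]
    positivity

end

end Pool.Agent.W378.Z3
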